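import Pool.Agent.Results.MP_c1fe20_lc.ContinuousMonoidAction

/-!
# Analytic quasi-orders and actions by isometries: the gluing maps

An odd letter is a marker: it carries a list `D` of letters, which replaces everything before it
(and itself). `P w n` is the list decoded from the first `n` letters of `w`. For all sequences
`z, z'` the gluing map `G z z'` is an isometry of Baire space onto itself which maps `z` to `z'`.
If `w` first differs from `z` at `n`, then `G z z' w` agrees with `z'` before `n`, agrees with `w`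
after `n`, and its letter at `n` is chosen such that the same list is decoded from the first `n + 1`
letters of `w` and of `G z z' w`. This is possible since every list is decoded from infinitely
many letters at every place.
-/

set_option autoImplicit false

open MeasureTheory Set Topology

namespace Pool.Agent.Y403.MA

universe u

/-! ### Markers and decoded lists -/

/-- a marker with the list `D` -/
def mk (D : List ℕ) (k : ℕ) : ℕ := 2 * Nat.pair (Encodable.encode D) k + 1

/-- the list of a marker -/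
def lp (l : ℕ) : List ℕ :=
  ((Encodable.decode (l / 2).unpair.1 : Option (List ℕ))).getD []

lemma mk_div (D : List ℕ) (k : ℕ) : mk D k / 2 = Nat.pair (Encodable.encode D) k := by
  unfold mk
  omega

lemma lp_mk (D : List ℕ) (k : ℕ) : lp (mk D k) = D := by
  unfold lp
  rw [mk_div]
  simp

lemma odd_mk (D : List ℕ) (k : ℕ) : mk D k % 2 = 1 := by
  unfold mk
  omega

lemma lt_mk (D : List ℕ) (k : ℕ) : k < mk D k := by
  unfold mk
  have := Nat.right_le_pair (Encodable.encode D) k
  omega

lemma mk_inj {D : List ℕ} {k l : ℕ} (h : mk D k = mk D l) : k = l := by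
  have h1 := congrArg (fun x => (x / 2).unpair.2) h
  simpa [mk_div] using h1

/-- the list decoded from the list `p` followed by the letter `a` -/
def nxt (p : List ℕ) (a : ℕ) : List ℕ := if a % 2 = 1 then lp a else p ++ [a]

lemma nxt_mk (p D : List ℕ) (k : ℕ) : nxt p (mk D k) = D := by
  unfold nxt
  rw [if_pos (odd_mk D k), lp_mk]

/-- The letters different from `t`, sorted by the decoded list. -/
lemma exists_sort (p : List ℕ) (t : ℕ) :
    ∃ E : {a : ℕ // a ≠ t} ≃ List ℕ × ℕ, ∀ a, (E a).1 = nxt p a.1 := by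
  let f : {a : ℕ // a ≠ t} → List ℕ := fun a => nxt p a.1
  have hinf : ∀ y : List ℕ, Infinite {x : {a : ℕ // a ≠ t} // f x = y} := by
    intro y
    let g : ℕ → {x : {a : ℕ // a ≠ t} // f x = y} := fun k =>
      ⟨⟨mk y (t + k), by have := lt_mk y (t + k); omega⟩, nxt_mk p y (t + k)⟩
    refine Infinite.of_injective g ?_
    intro k l h
    have h1 : mk y (t + k) = mk y (t + l) := congrArg (fun x => x.1.1) h
    have h2 := mk_inj h1
    omega
  have hne : ∀ y : List ℕ, Nonempty ({x : {a : ℕ // a ≠ t} // f x = y} ≃ ℕ) := by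
    intro y
    haveI := hinf y
    exact nonempty_equiv_of_countable
  let e : ∀ y : List ℕ, {x : {a : ℕ // a ≠ t} // f x = y} ≃ ℕ := fun y => (hne y).some
  refine ⟨(Equiv.sigmaFiberEquiv f).symm.trans ((Equiv.sigmaCongrRight e).trans
    (Equiv.sigmaEquivProd _ _)), fun a => rfl⟩

/-- the letters different from `t`, sorted by the decoded list -/
noncomputable def srt (p : List ℕ) (t : ℕ) : {a : ℕ // a ≠ t} ≃ List ℕ × ℕ :=
  (exists_sort p t).choose

lemma srt_spec (p : List ℕ) (t : ℕ) (a : {a : ℕ // a ≠ t}) : (srt p t a).1 = nxt p a.1 :=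
  (exists_sort p t).choose_spec a

/-- A permutation of the letters which maps `t` to `t'` and keeps the decoded list of the other
letters, where the lists decoded before are `p` and `p'`. -/
noncomputable def beta (p : List ℕ) (t : ℕ) (p' : List ℕ) (t' : ℕ) (a : ℕ) : ℕ :=
  if h : a = t then t' else ((srt p' t').symm (srt p t ⟨a, h⟩) : ℕ)

lemma beta_self (p : List ℕ) (t : ℕ) (p' : List ℕ) (t' : ℕ) : beta p t p' t' t = t' := by
  simp [beta]

lemma beta_beta (p : List ℕ) (t : ℕ) (p' : List ℕ) (t' : ℕ) (a : ℕ) :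
    beta p' t' p t (beta p t p' t' a) = a := by
  by_cases h : a = t
  · rw [h, beta_self, beta_self]
  · have h1 : beta p t p' t' a = ((srt p' t').symm (srt p t ⟨a, h⟩) : ℕ) := by
      simp [beta, h]
    have h2 : ((srt p' t').symm (srt p t ⟨a, h⟩) : ℕ) ≠ t' :=
      ((srt p' t').symm (srt p t ⟨a, h⟩)).2
    rw [h1]
    unfold beta
    rw [dif_neg h2]
    simp

lemma nxt_beta (p : List ℕ) (t : ℕ) (p' : List ℕ) (t' : ℕ) {a : ℕ} (h : a ≠ t) :
    nxt p' (beta p t p' t' a) = nxt p a := by
  have h1 : beta p t p' t' a = ((srt p' t').symm (srt p t ⟨a, h⟩) : ℕ) := by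
    simp [beta, h]
  rw [h1, ← srt_spec p' t', Equiv.apply_symm_apply, srt_spec]

/-- the list decoded from the first letters -/
def P (w : ℕ → ℕ) : ℕ → List ℕ
  | 0 => []
  | n + 1 => nxt (P w n) (w n)

lemma P_congr {w v : ℕ → ℕ} {n : ℕ} (h : ∀ j < n, w j = v j) : P w n = P v n := by
  induction n with
  | zero => rfl
  | succ n ih =>
    simp only [P]
    rw [h n (by omega), ih fun j hj => h j (by omega)]

/-- the decoded sequence, if there is no marker from `N` on -/
def dec (w : ℕ → ℕ) (N : ℕ) : ℕ → ℕ := fun j =>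
  if h : j < (P w N).length then (P w N)[j] else w (N + (j - (P w N).length))

lemma dec_zero (w : ℕ → ℕ) : dec w 0 = w := by
  funext j
  simp [dec, P]

lemma dec_succ {w : ℕ → ℕ} {N : ℕ} (h : w N % 2 = 0) : dec w (N + 1) = dec w N := by
  funext j
  have e : P w (N + 1) = P w N ++ [w N] := by
    simp only [P, nxt]
    rw [if_neg (by omega)]
  unfold dec
  rcases lt_trichotomy j (P w N).length with h1 | h1 | h1
  · rw [dif_pos (by rw [e, List.length_append]; omega), dif_pos h1]
    simp only [e]
    rw [List.getElem_append_left h1]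
  · rw [dif_pos (by rw [e, List.length_append]; simp; omega), dif_neg (by omega)]
    simp only [e]
    rw [List.getElem_append_right (by omega)]
    simp [h1]
  · rw [dif_neg (by rw [e, List.length_append]; simp; omega), dif_neg (by omega), e,
      List.length_append]
    congr 1
    simp
    omega

lemma dec_stable {w : ℕ → ℕ} {N N' : ℕ} (h : ∀ j ≥ N, w j % 2 = 0) (hN : N ≤ N') :
    dec w N' = dec w N := by
  induction N', hN using Nat.le_induction with
  | base => rfl
  | succ n hn ih => rw [dec_succ (h n hn), ih]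

/-! ### The gluing map -/

open Classical in
/-- the gluing map -/
noncomputable def G (z z' w : ℕ → ℕ) : ℕ → ℕ := fun k =>
  if ∀ j < k, w j = z j then beta (P z k) (z k) (P z' k) (z' k) (w k) else w k

lemma G_pos {z z' w : ℕ → ℕ} {k : ℕ} (h : ∀ j < k, w j = z j) :
    G z z' w k = beta (P z k) (z k) (P z' k) (z' k) (w k) := by
  unfold G
  rw [if_pos h]

lemma G_neg {z z' w : ℕ → ℕ} {k : ℕ} (h : ¬ ∀ j < k, w j = z j) : G z z' w k = w k := by
  unfold G
  rw [if_neg h]

lemma G_agree {z z' w : ℕ → ℕ} {k : ℕ} (h : ∀ j ≤ k, w j = z j) : G z z' w k = z' k := by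
  rw [G_pos fun j hj => h j hj.le, h k le_rfl, beta_self]

lemma G_self (z z' : ℕ → ℕ) : G z z' z = z' := funext fun _ => G_agree fun _ _ => rfl

lemma G_depends {z z' w y y' v : ℕ → ℕ} {k : ℕ} (hz : ∀ j ≤ k, z j = y j)
    (hz' : ∀ j ≤ k, z' j = y' j) (hw : ∀ j ≤ k, w j = v j) : G z z' w k = G y y' v k := by
  have hiff : (∀ j < k, w j = z j) ↔ ∀ j < k, v j = y j := by
    constructor
    · intro h j hj
      rw [← hw j hj.le, ← hz j hj.le, h j hj]
    · intro h j hj
      rw [hw j hj.le, hz j hj.le, h j hj]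
  by_cases h : ∀ j < k, w j = z j
  · rw [G_pos h, G_pos (hiff.1 h), P_congr fun j hj => hz j (le_of_lt hj),
      P_congr fun j hj => hz' j (le_of_lt hj), hz k le_rfl, hz' k le_rfl, hw k le_rfl]
  · rw [G_neg h, G_neg (fun h' => h (hiff.2 h')), hw k le_rfl]

lemma continuous_G : Continuous (fun q : (ℕ → ℕ) × (ℕ → ℕ) × (ℕ → ℕ) => G q.1 q.2.1 q.2.2) := by
  refine continuous_pi fun k => ?_
  apply IsLocallyConstant.continuous
  rw [IsLocallyConstant.iff_exists_open]
  intro p
  let r : (ℕ → ℕ) × (ℕ → ℕ) × (ℕ → ℕ) → (Fin (k + 1) → ℕ × ℕ × ℕ) :=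
    fun q j => (q.1 j, q.2.1 j, q.2.2 j)
  have hr : Continuous r := by
    refine continuous_pi fun j => ?_
    exact ((continuous_apply _).comp continuous_fst).prodMk
      (((continuous_apply _).comp (continuous_fst.comp continuous_snd)).prodMk
        ((continuous_apply _).comp (continuous_snd.comp continuous_snd)))
  refine ⟨r ⁻¹' {r p}, (isOpen_discrete _).preimage hr, rfl, ?_⟩
  intro q hq
  have hq' : ∀ j ≤ k, q.1 j = p.1 j ∧ q.2.1 j = p.2.1 j ∧ q.2.2 j = p.2.2 j := by
    intro j hj
    have := congrFun (hq : r q = r p) ⟨j, by omega⟩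
    simpa [r] using this
  exact G_depends (fun j hj => (hq' j hj).1) (fun j hj => (hq' j hj).2.1)
    (fun j hj => (hq' j hj).2.2)

lemma agree_iff (z z' w : ℕ → ℕ) (k : ℕ) :
    (∀ j < k, G z z' w j = z' j) ↔ ∀ j < k, w j = z j := by
  constructor
  · intro h
    by_contra hcon
    push Not at hcon
    classical
    have hlt := (Nat.find_spec hcon).1
    have hne := (Nat.find_spec hcon).2
    have hmin : ∀ j < Nat.find hcon, w j = z j := by
      intro j hj
      by_contra h2
      exact Nat.find_min hcon hj ⟨hj.trans hlt, h2⟩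
    have h1 := h _ hlt
    rw [G_pos hmin] at h1
    have h2 := congrArg (beta (P z' (Nat.find hcon)) (z' (Nat.find hcon)) (P z (Nat.find hcon))
      (z (Nat.find hcon))) h1
    rw [beta_beta, beta_self] at h2
    exact hne h2
  · intro h j hj
    exact G_agree fun i hi => h i (by omega)

/-- the gluing maps `G z z'` and `G z' z` are inverse to each other -/
lemma G_G (z z' w : ℕ → ℕ) : G z' z (G z z' w) = w := by
  funext k
  by_cases h : ∀ j < k, w j = z j
  · rw [G_pos ((agree_iff z z' w k).2 h), G_pos h, beta_beta]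
  · rw [G_neg (fun h' => h ((agree_iff z z' w k).1 h')), G_neg h]

/-- the gluing map preserves the agreement of initial segments in both directions -/
lemma G_isom (z z' w v : ℕ → ℕ) (n : ℕ) :
    (∀ j < n, G z z' w j = G z z' v j) ↔ ∀ j < n, w j = v j := by
  constructor
  · intro h j hj
    have h1 : G z' z (G z z' w) j = G z' z (G z z' v) j :=
      G_depends (fun _ _ => rfl) (fun _ _ => rfl) fun i hi => h i (by omega)
    rwa [G_G, G_G] at h1
  · intro h j hj
    exact G_depends (fun _ _ => rfl) (fun _ _ => rfl) fun i hi => h i (by omega)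

lemma P_G {z z' w : ℕ → ℕ} {n : ℕ} (hn : ∀ j < n, w j = z j) (hne : w n ≠ z n) {N : ℕ}
    (hN : n + 1 ≤ N) : P (G z z' w) N = P w N := by
  induction N, hN using Nat.le_induction with
  | base =>
    simp only [P]
    rw [P_congr ((agree_iff z z' w n).2 hn), G_pos hn, nxt_beta _ _ _ _ hne, P_congr hn]
  | succ m hm ih =>
    simp only [P]
    rw [G_neg (fun h => hne (h n (by omega))), ih]

/-! ### The value of a sequence -/

section Val

variable {X : Type u} (r : (ℕ → ℕ) → X) (x₀ : X)

open Classical in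
/-- the value of a sequence -/
noncomputable def val (z : ℕ → ℕ) : X :=
  if h : ∃ N, ∀ j ≥ N, z j % 2 = 0 then r (dec z (Nat.find h)) else x₀

lemma val_eq {z : ℕ → ℕ} {N : ℕ} (h : ∀ j ≥ N, z j % 2 = 0) : val r x₀ z = r (dec z N) := by
  classical
  have h' : ∃ N, ∀ j ≥ N, z j % 2 = 0 := ⟨N, h⟩
  rw [val, dif_pos h', dec_stable (Nat.find_spec h') (Nat.find_min' h' h)]

lemma val_none {z : ℕ → ℕ} (h : ¬ ∃ N, ∀ j ≥ N, z j % 2 = 0) : val r x₀ z = x₀ := by
  classical
  rw [val, dif_neg h]

lemma val_G {z z' w : ℕ → ℕ} (h : w ≠ z) : val r x₀ (G z z' w) = val r x₀ w := by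
  classical
  obtain ⟨n, hn, hne⟩ : ∃ n, (∀ j < n, w j = z j) ∧ w n ≠ z n := by
    have h1 : ∃ n, w n ≠ z n := by
      by_contra h2
      push Not at h2
      exact h (funext h2)
    refine ⟨Nat.find h1, fun j hj => ?_, Nat.find_spec h1⟩
    by_contra h2
    exact Nat.find_min h1 hj h2
  have hgt : ∀ k, n < k → G z z' w k = w k := fun k hk => G_neg fun h' => hne (h' n hk)
  by_cases hex : ∃ N, ∀ j ≥ N, w j % 2 = 0
  · obtain ⟨N, hN⟩ := hex
    have h1 : ∀ j ≥ max N (n + 1), w j % 2 = 0 := fun j hj => hN j (by omega)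
    have h2 : ∀ j ≥ max N (n + 1), G z z' w j % 2 = 0 := by
      intro j hj
      rw [hgt j (by omega)]
      exact h1 j hj
    rw [val_eq r x₀ h1, val_eq r x₀ h2]
    congr 1
    funext j
    unfold dec
    simp only [P_G hn hne (le_max_right N (n + 1))]
    split_ifs with h3
    · rfl
    · exact hgt _ (by omega)
  · have h2 : ¬ ∃ N, ∀ j ≥ N, G z z' w j % 2 = 0 := by
      rintro ⟨N, hN⟩
      apply hex
      refine ⟨max N (n + 1), fun j hj => ?_⟩
      have h3 := hN j (by omega)
      rwa [hgt j (by omega)] at h3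
    rw [val_none r x₀ hex, val_none r x₀ h2]

lemma val_of_even {z : ℕ → ℕ} (h : ∀ j, z j % 2 = 0) : val r x₀ z = r z := by
  rw [val_eq r x₀ (N := 0) (fun j _ => h j), dec_zero]

/-- a function of finitely many letters is measurable -/
lemma measurable_of_depends {f : (ℕ → ℕ) → ℕ} (K : ℕ)
    (h : ∀ z w : ℕ → ℕ, (∀ j < K, z j = w j) → f z = f w) : Measurable f := by
  have hc : Continuous f := by
    apply IsLocallyConstant.continuous
    rw [IsLocallyConstant.iff_exists_open]
    intro p
    let s : (ℕ → ℕ) → (Fin K → ℕ) := fun q j => q j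
    have hs : Continuous s := continuous_pi fun j => continuous_apply _
    refine ⟨s ⁻¹' {s p}, (isOpen_discrete _).preimage hs, rfl, ?_⟩
    intro q hq
    apply h
    intro j hj
    exact congrFun (hq : s q = s p) ⟨j, hj⟩
  exact hc.measurable

lemma measurable_dec (m j : ℕ) : Measurable (fun z : ℕ → ℕ => dec z m j) := by
  refine measurable_of_depends (m + j + 1) fun z w h => ?_
  have hP : P z m = P w m := P_congr fun i hi => h i (by omega)
  unfold dec
  simp only [hP]
  split_ifs
  · rfl
  · exact h _ (by omega)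

lemma measurable_val [MeasurableSpace X] (hr : Measurable r) : Measurable (val r x₀) := by
  classical
  have hA : ∀ N : ℕ, MeasurableSet {z : ℕ → ℕ | ∀ j ≥ N, z j % 2 = 0} := by
    intro N
    have : {z : ℕ → ℕ | ∀ j ≥ N, z j % 2 = 0} =
        ⋂ j : ℕ, ⋂ _ : j ≥ N, {z : ℕ → ℕ | z j % 2 = 0} := by
      ext z; simp
    rw [this]
    refine MeasurableSet.iInter fun j => MeasurableSet.iInter fun _ => ?_
    have h1 : Measurable (fun z : ℕ → ℕ => z j) := measurable_pi_apply j
    exact h1 (MeasurableSet.of_discrete (s := {x : ℕ | x % 2 = 0}))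
  -- the last marker
  let L : (ℕ → ℕ) → ℕ := fun z => if h : ∃ N, ∀ j ≥ N, z j % 2 = 0 then Nat.find h else 0
  have hL : Measurable L := by
    refine measurable_to_countable' fun n => ?_
    have : L ⁻¹' {n} = ({z | ∀ j ≥ n, z j % 2 = 0} ∩
        ⋂ m : ℕ, ⋂ _ : m < n, {z | ∀ j ≥ m, z j % 2 = 0}ᶜ) ∪
        ((⋂ N : ℕ, {z : ℕ → ℕ | ∀ j ≥ N, z j % 2 = 0}ᶜ) ∩ {_z | n = 0}) := by
      ext z
      by_cases h : ∃ N, ∀ j ≥ N, z j % 2 = 0
      · simp only [L, mem_preimage, dif_pos h, mem_singleton_iff, Nat.find_eq_iff, mem_union,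
          mem_inter_iff, mem_ofPred_eq, mem_iInter, mem_compl_iff]
        constructor
        · intro h1
          exact Or.inl h1
        · rintro (h1 | h1)
          · exact h1
          · obtain ⟨N, hN⟩ := h
            exact absurd hN (h1.1 N)
      · simp only [L, mem_preimage, dif_neg h, mem_singleton_iff, mem_union,
          mem_inter_iff, mem_ofPred_eq, mem_iInter, mem_compl_iff]
        constructor
        · intro h1
          exact Or.inr ⟨fun N hN => h ⟨N, hN⟩, h1.symm⟩
        · rintro (h1 | h1)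
          · exact absurd ⟨n, h1.1⟩ h
          · exact h1.2.symm
    rw [this]
    refine MeasurableSet.union ((hA n).inter ?_) (MeasurableSet.inter ?_ (MeasurableSet.const _))
    · exact MeasurableSet.iInter fun m => MeasurableSet.iInter fun _ => (hA m).compl
    · exact MeasurableSet.iInter fun N => (hA N).compl
  have hS : MeasurableSet {z : ℕ → ℕ | ∃ N, ∀ j ≥ N, z j % 2 = 0} := by
    have : {z : ℕ → ℕ | ∃ N, ∀ j ≥ N, z j % 2 = 0} =
        ⋃ N : ℕ, {z : ℕ → ℕ | ∀ j ≥ N, z j % 2 = 0} := by
      ext z; simp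
    rw [this]
    exact MeasurableSet.iUnion hA
  have hT : Measurable (fun z : ℕ → ℕ => dec z (L z)) := by
    refine measurable_pi_lambda _ fun j => ?_
    refine measurable_to_countable' fun n => ?_
    have : (fun z : ℕ → ℕ => dec z (L z) j) ⁻¹' {n} =
        ⋃ m : ℕ, (L ⁻¹' {m} ∩ (fun z : ℕ → ℕ => dec z m j) ⁻¹' {n}) := by
      ext z
      simp only [mem_preimage, mem_singleton_iff, mem_iUnion, mem_inter_iff]
      constructor
      · intro h
        exact ⟨L z, rfl, h⟩
      · rintro ⟨m, h1, h2⟩
        rw [h1]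
        exact h2
    rw [this]
    exact MeasurableSet.iUnion fun m => (hL (MeasurableSet.singleton m)).inter
      (measurable_dec m j (MeasurableSet.singleton n))
  have : val r x₀ = fun z => if z ∈ {z : ℕ → ℕ | ∃ N, ∀ j ≥ N, z j % 2 = 0} then
      r (dec z (L z)) else x₀ := by
    funext z
    by_cases h : ∃ N, ∀ j ≥ N, z j % 2 = 0
    · simp [val, L, h]
    · simp [val, h]
  rw [this]
  exact Measurable.ite hS (hr.comp hT) measurable_const

end Val

end Pool.Agent.Y403.MA
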