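import Pool.Agent.Y403.MA.Iso

/-!
# Every analytic quasi-order is induced by an action by isometries
-/

set_option autoImplicit false

open MeasureTheory Set Topology

namespace Pool.Agent.Y403.MA

open Pool.Agent.Results.MP_c1fe20_lc.ContinuousMonoidAction (M act continuousSMul_act)

universe u

theorem main_nonempty (X : Type u) [Nonempty X] [TopologicalSpace X] [PolishSpace X]
    [MeasurableSpace X] [BorelSpace X] (R : Set (X × X)) (hR : AnalyticSet R)
    (hrefl : ∀ x, (x, x) ∈ R) (htrans : ∀ x y z, (x, y) ∈ R → (y, z) ∈ R → (x, z) ∈ R) :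
    ∃ T : (ℕ → ℕ) → (ℕ → ℕ) → (ℕ → ℕ), Continuous (fun q : (ℕ → ℕ) × (ℕ → ℕ) => T q.1 q.2) ∧
      (∀ p, Function.Surjective (T p)) ∧
      (∀ p w v : ℕ → ℕ, ∀ n : ℕ, (∀ j < n, T p w j = T p v j) ↔ ∀ j < n, w j = v j) ∧
      (letI := act T
       ∃ (f : X → ℕ → ℕ) (g : (ℕ → ℕ) → X), Measurable f ∧ Measurable g ∧ (∀ x, g (f x) = x) ∧
         ∀ z z' : ℕ → ℕ, (∃ m : M, m • z = z') ↔ (g z, g z') ∈ R) := by
  classical
  obtain ⟨x₀⟩ := ‹Nonempty X›
  -- a Borel embedding of `X` into Baire space, with no markers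
  obtain ⟨c₀, hc₀m, hc₀i⟩ :=
    MeasurableSpace.measurable_injection_nat_bool_of_countablySeparated X
  let c : X → (ℕ → ℕ) := fun x n => if c₀ x n then 2 else 0
  have hcm : Measurable c := by
    refine measurable_pi_lambda _ fun n => ?_
    have h1 : Measurable (fun x => c₀ x n) := (measurable_pi_apply n).comp hc₀m
    exact (Measurable.of_discrete (f := fun b : Bool => if b = true then (2 : ℕ) else 0)).comp h1
  have hci : Function.Injective c := by
    intro x y hxy
    apply hc₀i
    funext n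
    have := congrFun hxy n
    simp only [c] at this
    cases h1 : c₀ x n <;> cases h2 : c₀ y n <;> simp_all
  have hc0 : ∀ x j, c x j % 2 = 0 := by
    intro x j
    simp only [c]
    split_ifs <;> norm_num
  obtain ⟨r, hrm, hrc⟩ := (hcm.measurableEmbedding hci).exists_measurable_extend
    (g := (id : X → X)) measurable_id (fun _ => ⟨x₀⟩)
  have hval : ∀ x, val r x₀ (c x) = x := by
    intro x
    rw [val_of_even r x₀ (hc0 x)]
    exact congrFun hrc x
  have hvm : Measurable (val r x₀) := measurable_val r x₀ hrm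
  -- the pulled back quasi-order is analytic
  rw [AnalyticSet] at hR
  obtain ⟨ψ, hψ, hψr⟩ : ∃ ψ : (ℕ → ℕ) → X × X, Continuous ψ ∧ range ψ = R := by
    rcases hR with hR | hR
    · have := hrefl x₀
      rw [hR] at this
      exact absurd this (notMem_empty _)
    · exact hR
  set S : Set ((ℕ → ℕ) × (ℕ → ℕ)) := {q | (val r x₀ q.1, val r x₀ q.2) ∈ R} with hS
  have hSa : AnalyticSet S := by
    have h1 : MeasurableSet {q : ((ℕ → ℕ) × (ℕ → ℕ)) × (ℕ → ℕ) |
        (val r x₀ q.1.1, val r x₀ q.1.2) = ψ q.2} := by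
      apply measurableSet_eq_fun
      · exact (hvm.comp (measurable_fst.comp measurable_fst)).prodMk
          (hvm.comp (measurable_snd.comp measurable_fst))
      · exact hψ.measurable.comp measurable_snd
    have h2 := h1.analyticSet_image (f := (Prod.fst : ((ℕ → ℕ) × (ℕ → ℕ)) × (ℕ → ℕ) → _))
      measurable_fst
    convert h2 using 1
    ext q
    simp only [hS, mem_ofPred_eq, mem_image, Prod.exists, exists_and_right, exists_eq_right]
    rw [← hψr]
    constructor
    · rintro ⟨w, hw⟩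
      exact ⟨w, hw.symm⟩
    · rintro ⟨w, hw⟩
      exact ⟨w, hw.symm⟩
  have hSr : ∀ z, (z, z) ∈ S := fun z => hrefl _
  have hSt : ∀ x y z, (x, y) ∈ S → (y, z) ∈ S → (x, z) ∈ S := fun x y z => htrans _ _ _
  rw [AnalyticSet] at hSa
  obtain ⟨θ, hθ, hθr⟩ : ∃ θ : (ℕ → ℕ) → (ℕ → ℕ) × (ℕ → ℕ), Continuous θ ∧ range θ = S := by
    rcases hSa with hSa | hSa
    · have := hSr (c x₀)
      rw [hSa] at this
      exact absurd this (notMem_empty _)
    · exact hSa
  let T : (ℕ → ℕ) → (ℕ → ℕ) → (ℕ → ℕ) := fun p w => G (θ p).1 (θ p).2 w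
  have hT : Continuous (fun q : (ℕ → ℕ) × (ℕ → ℕ) => T q.1 q.2) := by
    have h1 : Continuous (fun q : (ℕ → ℕ) × (ℕ → ℕ) => ((θ q.1).1, (θ q.1).2, q.2)) :=
      (continuous_fst.comp (hθ.comp continuous_fst)).prodMk
        ((continuous_snd.comp (hθ.comp continuous_fst)).prodMk continuous_snd)
    exact continuous_G.comp h1
  have hTS : ∀ p w, (w, T p w) ∈ S := by
    intro p w
    by_cases h : w = (θ p).1
    · have h1 : T p w = (θ p).2 := by
        simp only [T]
        rw [h, G_self]
      rw [h1, h, ← hθr]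
      exact ⟨p, rfl⟩
    · have h1 : val r x₀ (T p w) = val r x₀ w := by
        simp only [T]
        exact val_G r x₀ h
      simp only [hS, mem_ofPred_eq, h1]
      exact hrefl _
  refine ⟨T, hT, fun p w => ⟨G (θ p).2 (θ p).1 w, G_G _ _ _⟩, fun p w v n => G_isom _ _ w v n,
    c, val r x₀, hcm, hvm, hval, ?_⟩
  letI := act T
  intro z z'
  constructor
  · rintro ⟨g, rfl⟩
    have : ∀ l : List (ℕ → ℕ), (z, l.foldr T z) ∈ S := by
      intro l
      induction l with
      | nil => exact hSr z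
      | cons p l ih =>
        rw [List.foldr_cons]
        exact hSt _ _ _ ih (hTS p _)
    exact this g
  · intro h
    have h' : (z, z') ∈ S := h
    rw [← hθr] at h'
    obtain ⟨p, hp⟩ := h'
    refine ⟨FreeMonoid.of p, ?_⟩
    change T p z = z'
    simp only [T]
    rw [hp]
    exact G_self z z'

/-- all elements of the monoid act by isometric embeddings -/
theorem isom_act {T : (ℕ → ℕ) → (ℕ → ℕ) → (ℕ → ℕ)}
    (hT : ∀ p w v : ℕ → ℕ, ∀ n : ℕ, (∀ j < n, T p w j = T p v j) ↔ ∀ j < n, w j = v j)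
    (m : M) (w v : ℕ → ℕ) (n : ℕ) :
    (letI := act T; (∀ j < n, (m • w) j = (m • v) j)) ↔ ∀ j < n, w j = v j := by
  have : ∀ l : List (ℕ → ℕ), (∀ j < n, l.foldr T w j = l.foldr T v j) ↔ ∀ j < n, w j = v j := by
    intro l
    induction l with
    | nil => exact Iff.rfl
    | cons p l ih =>
      rw [List.foldr_cons, List.foldr_cons, hT, ih]
  exact this m

/-- all elements of the monoid act by surjective maps -/
theorem surj_act {T : (ℕ → ℕ) → (ℕ → ℕ) → (ℕ → ℕ)} (hT : ∀ p, Function.Surjective (T p)) (m : M) :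
    (letI := act T; Function.Surjective (fun w : ℕ → ℕ => m • w)) := by
  have : ∀ l : List (ℕ → ℕ), Function.Surjective (fun w : ℕ → ℕ => l.foldr T w) := by
    intro l
    induction l with
    | nil => exact fun w => ⟨w, rfl⟩
    | cons p l ih =>
      intro w
      obtain ⟨v, hv⟩ := hT p w
      obtain ⟨v', hv'⟩ := ih v
      refine ⟨v', ?_⟩
      simp only at hv'
      simp only [List.foldr_cons]
      rw [hv', hv]
  exact this m

theorem left_cancel (a b c : M) (h : a * b = a * c) : b = c :=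
  @mul_left_cancel (FreeMonoid (ℕ → ℕ)) _ _ a b c h

theorem right_cancel (a b c : M) (h : b * a = c * a) : b = c :=
  @mul_right_cancel (FreeMonoid (ℕ → ℕ)) _ _ b a c h

end Pool.Agent.Y403.MA
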